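import Pool.Agent.N943.RC.Stm

/-!
Project RC, task P4 (helper322): choice of the density by rank increments.
-/

set_option autoImplicit false

namespace Pool.Agent.N322.RC

open Finset Pool.Agent.R980 N943.RC
open scoped Classical

/-! ### Bernoulli products -/

theorem bex_coord {E : Type} [Fintype E] [DecidableEq E] (p : ℝ) (a : E) (h : Bool → ℝ) :
    bex p (fun x : E → Bool => h (x a)) = p * h true + (1 - p) * h false := by
  have h1 : (fun x : E → Bool => h (x a)) =
      fun x => ∏ e : E, (fun (e : E) (b : Bool) => if e = a then h b else 1) e (x e) := by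
    funext x
    simp
  rw [h1, bex_prod p (fun (e : E) (b : Bool) => if e = a then h b else 1)]
  have h2 : ∀ e : E, (p * (if e = a then h true else 1) + (1 - p) * (if e = a then h false else 1))
      = if e = a then p * h true + (1 - p) * h false else 1 := by
    intro e; split_ifs <;> ring
  rw [prod_congr rfl fun e _ => h2 e]
  simp

theorem bex_sum {E ι : Type} [Fintype E] [DecidableEq E] (p : ℝ) (s : Finset ι)
    (f : ι → (E → Bool) → ℝ) :
    bex p (fun x => ∑ i ∈ s, f i x) = ∑ i ∈ s, bex p (f i) := by
  unfold bex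
  rw [sum_comm]
  exact sum_congr rfl fun x _ => by rw [mul_sum]

/-- thinning of a Bernoulli family -/
theorem bex_thin {E : Type} [Fintype E] [DecidableEq E] (p s : ℝ) (F : (E → Bool) → ℝ) :
    bex (p * s) F = bex p (fun x => bex s (fun y => F (fun e => x e && y e))) := by
  have hF : ∀ w : E → Bool, F w = ∑ z : E → Bool, F z * ∏ e, (if w e = z e then (1 : ℝ) else 0) := by
    intro w
    rw [Finset.sum_eq_single w]
    · simp
    · intro z _ hz
      obtain ⟨e, he⟩ := Function.ne_iff.1 hz
      rw [prod_eq_zero (mem_univ e) (if_neg (Ne.symm he)), mul_zero]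
    · intro h
      exact absurd (mem_univ w) h
  have h1 : ∀ x : E → Bool, bex s (fun y => F (fun e => x e && y e)) =
      ∑ z : E → Bool, F z * ∏ e, (s * (if x e = z e then (1 : ℝ) else 0) +
        (1 - s) * (if false = z e then (1 : ℝ) else 0)) := by
    intro x
    have h2 : (fun y : E → Bool => F (fun e => x e && y e)) = fun y => ∑ z : E → Bool, F z *
        ∏ e, (fun (e : E) (b : Bool) => if (x e && b) = z e then (1 : ℝ) else 0) e (y e) := by
      funext y
      exact hF _
    rw [h2, bex_sum]
    refine sum_congr rfl fun z _ => ?_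
    rw [bex_mul, bex_prod s (fun (e : E) (b : Bool) => if (x e && b) = z e then (1 : ℝ) else 0)]
    simp only [Bool.and_true, Bool.and_false]
  have h3 : (fun x : E → Bool => bex s (fun y => F (fun e => x e && y e))) = fun x =>
      ∑ z : E → Bool, F z * ∏ e, (fun (e : E) (b : Bool) => s * (if b = z e then (1 : ℝ) else 0) +
        (1 - s) * (if false = z e then (1 : ℝ) else 0)) e (x e) := by
    funext x
    exact h1 x
  rw [h3, bex_sum]
  unfold bex
  refine sum_congr rfl fun z _ => ?_
  have h4 := bex_mul p (F z) (fun x : E → Bool => ∏ e, (fun (e : E) (b : Bool) =>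
    s * (if b = z e then (1 : ℝ) else 0) + (1 - s) * (if false = z e then (1 : ℝ) else 0)) e (x e))
  rw [bex_prod p (fun (e : E) (b : Bool) => s * (if b = z e then (1 : ℝ) else 0) +
    (1 - s) * (if false = z e then (1 : ℝ) else 0))] at h4
  unfold bex at h4
  rw [h4, mul_comm]
  congr 1
  unfold bw
  refine prod_congr rfl fun e _ => ?_
  cases z e
  · simp
    ring
  · simp

/-! ### Ranks -/

/-- the homogenization of a point -/
def hom {d : ℕ} (p : Pt d) : Pt d × ℝ := (p, 1)

theorem mem_affineSpan_of_hom {d : ℕ} (T : Set (Pt d)) (p : Pt d)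
    (h : hom p ∈ Submodule.span ℝ (hom '' T)) : p ∈ affineSpan ℝ T := by
  rcases T.eq_empty_or_nonempty with rfl | ⟨t0, ht0⟩
  · rw [Set.image_empty, Submodule.span_empty, Submodule.mem_bot] at h
    have := congrArg Prod.snd h
    simp [hom] at this
  · have key : ∀ y ∈ Submodule.span ℝ (hom '' T), y.1 - y.2 • t0 ∈ vectorSpan ℝ T := by
      intro y hy
      induction hy using Submodule.span_induction with
      | mem x hx =>
        obtain ⟨t, ht, rfl⟩ := hx
        simp only [hom, one_smul]
        exact vsub_mem_vectorSpan ℝ ht ht0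
      | zero => simp
      | add x y _ _ h1 h2 =>
        have : (x + y).1 - (x + y).2 • t0 = (x.1 - x.2 • t0) + (y.1 - y.2 • t0) := by
          simp only [Prod.fst_add, Prod.snd_add, add_smul]
          abel
        rw [this]
        exact Submodule.add_mem _ h1 h2
      | smul c x _ h1 =>
        have : (c • x).1 - (c • x).2 • t0 = c • (x.1 - x.2 • t0) := by
          simp only [Prod.smul_fst, Prod.smul_snd, smul_sub, smul_assoc]
        rw [this]
        exact Submodule.smul_mem _ _ h1
    have h1 := key _ h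
    simp only [hom, one_smul] at h1
    rw [← direction_affineSpan] at h1
    have h2 : t0 ∈ affineSpan ℝ T := subset_affineSpan ℝ T ht0
    have h3 := (AffineSubspace.vsub_right_mem_direction_iff_mem h2 p).1 h1
    exact h3

/-- the rank of a set of indices -/
noncomputable def rk {n d : ℕ} (v : Fin n → Pt d) (S : Set (Fin n)) : ℕ :=
  Module.finrank ℝ (Submodule.span ℝ (hom '' (v '' S)))

theorem rk_mono {n d : ℕ} (v : Fin n → Pt d) {S T : Set (Fin n)} (h : S ⊆ T) :
    rk v S ≤ rk v T :=
  Submodule.finrank_mono (Submodule.span_mono (Set.image_mono (Set.image_mono h)))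

theorem rk_le {n d : ℕ} (v : Fin n → Pt d) (S : Set (Fin n)) : rk v S ≤ d + 1 := by
  refine (Submodule.finrank_le _).trans ?_
  rw [Module.finrank_prod, finrank_euclideanSpace, Fintype.card_fin, Module.finrank_self]

theorem rk_remove {n d : ℕ} (v : Fin n → Pt d) (S : Set (Fin n)) (L : Finset (Fin n))
    (hL : ∀ a ∈ L, a ∈ S ∧ v a ∉ affineSpan ℝ (v '' (S \ {a}))) :
    rk v (S \ ↑L) + L.card ≤ rk v S := by
  induction L using Finset.induction_on with
  | empty => simp
  | insert a L ha ih =>
    have h1 := ih fun b hb => hL b (mem_insert_of_mem hb)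
    obtain ⟨h2, h3⟩ := hL a (mem_insert_self _ _)
    have h4 : rk v (S \ ↑(insert a L)) < rk v (S \ ↑L) := by
      unfold rk
      refine Submodule.finrank_lt_finrank_of_lt (lt_of_le_of_ne ?_ ?_)
      · refine Submodule.span_mono (Set.image_mono (Set.image_mono ?_))
        intro x hx
        exact ⟨hx.1, fun h => hx.2 (by rw [Finset.coe_insert]; exact Or.inr h)⟩
      · intro heq
        apply h3
        apply mem_affineSpan_of_hom
        have h5 : hom (v a) ∈ Submodule.span ℝ (hom '' (v '' (S \ ↑(insert a L)))) := by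
          rw [heq]
          exact Submodule.subset_span ⟨v a, ⟨a, ⟨h2, fun h => ha (Finset.mem_coe.1 h)⟩, rfl⟩, rfl⟩
        refine Submodule.span_mono (Set.image_mono (Set.image_mono ?_)) h5
        intro x hx
        refine ⟨hx.1, fun h => hx.2 ?_⟩
        rw [Set.mem_singleton_iff] at h
        rw [h, Finset.coe_insert]
        exact Or.inl rfl
    rw [card_insert_of_notMem ha]
    omega

/-- mean rank -/
noncomputable def rho {n d : ℕ} (v : Fin n → Pt d) (q : ℝ) : ℝ :=
  bex q (fun z : Fin n → Bool => (rk v {u | z u = true} : ℝ))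

/-- indicator of a coloop -/
noncomputable def co {n d : ℕ} (v : Fin n → Pt d) (a : Fin n) (z : Fin n → Bool) : ℝ :=
  if v a ∉ affineSpan ℝ (v '' {u | u ≠ a ∧ z u = true}) then 1 else 0

/-- indicator of the presence of `a` -/
noncomputable def pr {n : ℕ} (a : Fin n) (z : Fin n → Bool) : ℝ := if z a = true then 1 else 0

theorem rk_and {n d : ℕ} (v : Fin n → Pt d) (x y : Fin n → Bool) :
    (rk v {u | (x u && y u) = true} : ℝ) ≤
      rk v {u | x u = true} - ∑ a : Fin n, (pr a x * co v a x) * (if y a = true then 0 else 1) := by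
  set L : Finset (Fin n) := univ.filter (fun a => y a ≠ true ∧ x a = true ∧
    v a ∉ affineSpan ℝ (v '' {u | u ≠ a ∧ x u = true})) with hL
  have h1 : ∑ a : Fin n, (pr a x * co v a x) * (if y a = true then (0 : ℝ) else 1) = L.card := by
    rw [hL, Finset.card_filter]
    push_cast
    refine sum_congr rfl fun a _ => ?_
    unfold pr co
    by_cases h2 : y a = true
    · have hn : ¬ (y a ≠ true ∧ x a = true ∧
          v a ∉ affineSpan ℝ (v '' {u | u ≠ a ∧ x u = true})) := fun h => h.1 h2
      rw [if_pos h2, mul_zero, if_neg hn]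
    · rw [if_neg h2, mul_one]
      by_cases h3 : x a = true
      · rw [if_pos h3, one_mul]
        by_cases h4 : v a ∉ affineSpan ℝ (v '' {u | u ≠ a ∧ x u = true})
        · rw [if_pos h4, if_pos ⟨h2, h3, h4⟩]
        · have hn : ¬ (y a ≠ true ∧ x a = true ∧
            v a ∉ affineSpan ℝ (v '' {u | u ≠ a ∧ x u = true})) := fun h => h4 h.2.2
          rw [if_neg h4, if_neg hn]
      · have hn : ¬ (y a ≠ true ∧ x a = true ∧
            v a ∉ affineSpan ℝ (v '' {u | u ≠ a ∧ x u = true})) := fun h => h3 h.2.1
        rw [if_neg h3, zero_mul, if_neg hn]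
  have h2 := rk_remove v {u | x u = true} L (by
    intro a ha
    obtain ⟨-, -, h3, h4⟩ := mem_filter.1 ha
    refine ⟨h3, ?_⟩
    have : ({u | x u = true} \ {a} : Set (Fin n)) = {u | u ≠ a ∧ x u = true} := by
      ext u
      constructor
      · intro h
        exact ⟨h.2, h.1⟩
      · intro h
        exact ⟨h.2, h.1⟩
    rw [this]
    exact h4)
  have h3 : rk v {u | (x u && y u) = true} ≤ rk v ({u | x u = true} \ ↑L) := by
    refine rk_mono v ?_
    intro u hu
    have hu' : x u = true ∧ y u = true := by simpa using hu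
    refine ⟨hu'.1, fun h => ?_⟩
    exact (mem_filter.1 (Finset.mem_coe.1 h)).2.1 hu'.2
  rw [h1]
  have h4 : ((rk v {u | (x u && y u) = true} + L.card : ℕ) : ℝ) ≤ rk v {u | x u = true} := by
    exact_mod_cast (Nat.add_le_add_right h3 _).trans h2
  push_cast at h4
  linarith

theorem Phi_eq {n d : ℕ} (v : Fin n → Pt d) (q : ℝ) : Phi v q = ∑ a : Fin n, bex q (co v a) := rfl

theorem mean_co {n d : ℕ} (v : Fin n → Pt d) (q : ℝ) (a : Fin n) :
    bex q (fun x => pr a x * co v a x) = q * bex q (co v a) := by
  rw [bex_block q (fun e => e = a) (pr a) (co v a)]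
  · congr 1
    have := bex_coord q a (fun b => if b = true then (1 : ℝ) else 0)
    simp only [if_true, Bool.false_eq_true, if_false, mul_one, mul_zero, add_zero] at this
    exact this
  · intro x y h
    unfold pr
    rw [h a rfl]
  · intro x y h
    have : {u | u ≠ a ∧ x u = true} = {u | u ≠ a ∧ y u = true} := by
      ext u
      constructor
      · intro hu
        exact ⟨hu.1, by rw [← h u hu.1]; exact hu.2⟩
      · intro hu
        exact ⟨hu.1, by rw [h u hu.1]; exact hu.2⟩
    unfold co
    rw [this]

theorem step {n d : ℕ} (v : Fin n → Pt d) (q : ℝ) (h0 : 0 ≤ q) (h1 : 2 * q ≤ 1) :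
    (2 * q) * Phi v (2 * q) / 2 ≤ rho v (2 * q) - rho v q := by
  have e1 : rho v q = bex (2 * q) (fun x => bex (1 / 2) (fun y =>
      (rk v {u | (x u && y u) = true} : ℝ))) := by
    unfold rho
    have := bex_thin (2 * q) (1 / 2) (fun z : Fin n → Bool => (rk v {u | z u = true} : ℝ))
    have h2 : 2 * q * (1 / 2) = q := by ring
    rw [h2] at this
    exact this
  have e2 : rho v q ≤ bex (2 * q) (fun x => (rk v {u | x u = true} : ℝ) +
      (-(1 / 2)) * ∑ a : Fin n, pr a x * co v a x) := by
    rw [e1]
    refine bex_mono (by linarith) h1 fun x => ?_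
    have h3 : bex (1 / 2) (fun y => (rk v {u | (x u && y u) = true} : ℝ)) ≤
        bex (1 / 2) (fun y : Fin n → Bool => (rk v {u | x u = true} : ℝ) +
          (-1) * ∑ a : Fin n, (pr a x * co v a x) * (if y a = true then 0 else 1)) := by
      refine bex_mono (by norm_num) (by norm_num) fun y => ?_
      have := rk_and v x y
      linarith
    refine h3.trans (le_of_eq ?_)
    rw [bex_add, bex_const, bex_mul, bex_sum]
    congr 1
    have h4 : ∀ a ∈ (univ : Finset (Fin n)), bex (1 / 2) (fun y : Fin n → Bool =>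
        (pr a x * co v a x) * (if y a = true then (0 : ℝ) else 1)) =
        (pr a x * co v a x) * (1 / 2) := by
      intro a _
      rw [bex_mul]
      have := bex_coord (E := Fin n) (1 / 2) a (fun b => if b = true then (0 : ℝ) else 1)
      rw [this]
      norm_num
    rw [sum_congr rfl h4, ← sum_mul]
    ring
  have e3 : bex (2 * q) (fun x => (rk v {u | x u = true} : ℝ) +
      (-(1 / 2)) * ∑ a : Fin n, pr a x * co v a x) = rho v (2 * q) - (2 * q) * Phi v (2 * q) / 2 := by
    rw [bex_add, bex_mul, bex_sum, Phi_eq]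
    rw [sum_congr rfl fun a _ => mean_co v (2 * q) a, ← mul_sum]
    unfold rho
    ring
  rw [e3] at e2
  linarith

/-- **P4** -/
theorem scale : N943.RC.Scale := by
  intro n d J v q hq hJq hJ
  by_contra hcon
  push Not at hcon
  have hpos : (0 : ℝ) < J := by exact_mod_cast hJ
  have hle : ∀ j, j ≤ J → (2 : ℝ) ^ j * q ≤ 1 := by
    intro j hj
    have : (2 : ℝ) ^ j ≤ 2 ^ J := pow_le_pow_right₀ (by norm_num) hj
    nlinarith
  have key : ∀ m, m ≤ J → (m : ℝ) * ((d + 1) / J) ≤ rho v (2 ^ m * q) - rho v q := by
    intro m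
    induction m with
    | zero => intro _; simp
    | succ m ih =>
      intro hm
      have h1 := ih (by omega)
      have h2 := step v (2 ^ m * q) (by positivity) (by
        have := hle (m + 1) hm
        rw [pow_succ] at this
        linarith)
      have h3 : (2 : ℝ) * (2 ^ m * q) = 2 ^ (m + 1) * q := by
        rw [pow_succ]; ring
      rw [h3] at h2
      have h4 := hcon (m + 1) (by omega) hm
      have h5 : (2 : ℝ) * (d + 1) / J = 2 * ((d + 1) / J) := by ring
      rw [h5] at h4
      push_cast
      linarith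
  -- one more strict step
  obtain ⟨m, rfl⟩ : ∃ m, J = m + 1 := ⟨J - 1, by omega⟩
  have h1 := key m (by omega)
  have h2 := step v (2 ^ m * q) (by positivity) (by
    have := hle (m + 1) le_rfl
    rw [pow_succ] at this
    linarith)
  have h3 : (2 : ℝ) * (2 ^ m * q) = 2 ^ (m + 1) * q := by
    rw [pow_succ]; ring
  rw [h3] at h2
  have h4 := hcon (m + 1) (by omega) le_rfl
  have h5 : (2 : ℝ) * (d + 1) / ((m + 1 : ℕ) : ℝ) = 2 * ((d + 1) / ((m + 1 : ℕ) : ℝ)) := by ring
  rw [h5] at h4
  have h6 : rho v (2 ^ (m + 1) * q) ≤ d + 1 := by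
    unfold rho
    have := bex_mono (E := Fin n) (p := 2 ^ (m + 1) * q) (by positivity) (hle (m + 1) le_rfl)
      (f := fun z : Fin n → Bool => (rk v {u | z u = true} : ℝ)) (g := fun _ => (d : ℝ) + 1)
      (fun z => by exact_mod_cast rk_le v {u | z u = true})
    rw [bex_const] at this
    exact this
  have h7 : 0 ≤ rho v q := by
    have := bex_mono (E := Fin n) (p := q) hq.le (by have := hle 0 (by omega); simpa using this)
      (f := fun _ => (0 : ℝ)) (g := fun z : Fin n → Bool => (rk v {u | z u = true} : ℝ))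
      (fun z => Nat.cast_nonneg _)
    rw [bex_const] at this
    exact this
  have h8 : ((m + 1 : ℕ) : ℝ) * (((d : ℝ) + 1) / ((m + 1 : ℕ) : ℝ)) = d + 1 := by
    field_simp
  have h9 : ((m + 1 : ℕ) : ℝ) = (m : ℝ) + 1 := by push_cast; ring
  have h10 : ((m : ℝ) + 1) * (((d : ℝ) + 1) / ((m + 1 : ℕ) : ℝ)) = d + 1 := by
    rw [← h9]; exact h8
  linarith

end Pool.Agent.N322.RC
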